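import Pool.Agent.W_MP_03ad1b_co.Final

/-!
# `B₂ = B'`

The set of the critical densities of the proper minor-closed classes all of whose excluded minors are
`2`-connected is the set of the accumulation points of the set of the critical densities of all proper
minor-closed classes.
-/

set_option autoImplicit false

namespace Pool.Agent.Results.MP_03ad1b_co.LimitDensities

open Pool.Agent.W_MP_03ad1b_co

theorem result : critB2 = derivedSet critB := critB2_eq

end Pool.Agent.Results.MP_03ad1b_co.LimitDensities
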